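import Pool.Agent.N939.ME.Stm3

/-! # Gram forms of contractions are dominated by Toeplitz forms -/

set_option autoImplicit false

namespace Pool.Agent.N342.ME

open Finset Pool.Agent.N939.ME

theorem opa : S_OPa := by
  intro H _ _ A hA g n
  induction n with
  | zero => intro c; simp
  | succ n ih =>
    intro c
    have h1 := ih fun p => c (p + 1)
    obtain ⟨S, hS⟩ : ∃ S : H, S = ∑ p ∈ range n, c (p + 1) • (A ^ p) g := ⟨_, rfl⟩
    rw [← hS] at h1
    have h2 : ∑ p ∈ range (n + 1), c p • (A ^ p) g = c 0 • g + A S := by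
      have e1 : ∑ p ∈ range n, c (p + 1) • (A ^ (p + 1)) g = A S := by
        rw [hS, map_sum]
        refine sum_congr rfl fun p _ => ?_
        rw [map_smul, pow_succ' A p]
        rfl
      rw [sum_range_succ', e1, add_comm, pow_zero]
      rfl
    have h3 : inner ℝ g (A S) = ∑ p ∈ range n, c (p + 1) * inner ℝ ((A ^ (p + 1)) g) g := by
      rw [hS, map_sum, inner_sum]
      refine sum_congr rfl fun p _ => ?_
      rw [map_smul, inner_smul_right, pow_succ' A p, real_inner_comm]
      rfl
    have h4 : ∑ p ∈ range (n + 1), ∑ q ∈ range (n + 1),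
        c p * c q * inner ℝ ((A ^ (Nat.dist p q)) g) g =
        ∑ p ∈ range n, ∑ q ∈ range n, c (p + 1) * c (q + 1) *
          inner ℝ ((A ^ (Nat.dist p q)) g) g + 2 * (c 0 * inner ℝ g (A S)) +
          c 0 ^ 2 * inner ℝ g g := by
      rw [sum_range_succ']
      have h5 : ∀ p ∈ range n, ∑ q ∈ range (n + 1),
          c (p + 1) * c q * inner ℝ ((A ^ (Nat.dist (p + 1) q)) g) g =
          ∑ q ∈ range n, c (p + 1) * c (q + 1) * inner ℝ ((A ^ (Nat.dist p q)) g) g +
            c 0 * (c (p + 1) * inner ℝ ((A ^ (p + 1)) g) g) := by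
        intro p _
        rw [sum_range_succ']
        congr 1
        · refine sum_congr rfl fun q _ => ?_
          have : Nat.dist (p + 1) (q + 1) = Nat.dist p q := by
            simp [Nat.dist]
          rw [this]
        · have : Nat.dist (p + 1) 0 = p + 1 := by simp [Nat.dist]
          rw [this]
          ring
      rw [sum_congr rfl h5, sum_add_distrib, ← mul_sum, ← h3, sum_range_succ']
      have h6 : ∑ q ∈ range n, c 0 * c (q + 1) * inner ℝ ((A ^ (Nat.dist 0 (q + 1))) g) g =
          c 0 * inner ℝ g (A S) := by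
        rw [h3, mul_sum]
        refine sum_congr rfl fun q _ => ?_
        have : Nat.dist 0 (q + 1) = q + 1 := by simp [Nat.dist]
        rw [this]
        ring
      rw [h6]
      have h7 : Nat.dist 0 0 = 0 := by simp [Nat.dist]
      rw [h7, pow_zero]
      have h8 : ((1 : H →L[ℝ] H) g) = g := rfl
      rw [h8]
      ring
    rw [h2, h4]
    have h9 : ‖c 0 • g + A S‖ ^ 2 = c 0 ^ 2 * inner ℝ g g + 2 * (c 0 * inner ℝ g (A S)) +
        ‖A S‖ ^ 2 := by
      rw [norm_add_sq_real, inner_smul_left, norm_smul, real_inner_self_eq_norm_sq]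
      simp only [conj_trivial, Real.norm_eq_abs]
      rw [mul_pow, sq_abs]
    rw [h9]
    have h10 : ‖A S‖ ^ 2 ≤ ‖S‖ ^ 2 := pow_le_pow_left₀ (norm_nonneg _) (hA S) 2
    linarith

end Pool.Agent.N342.ME
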